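import Pool.Agent.Y285.PF.Shape

/-!
Approximation of a candidate by candidates approaching their asymptote at `+∞` faster than every
exponential.
-/

set_option autoImplicit false

open scoped Topology ContDiff
open Filter Set
open Pool.Agent.H576R3.PR

namespace Pool.Agent.Y285.PF

variable {F : ℝ → ℝ} {h : ℝ}

theorem chord_right (hF : IsCandidate h F) {t : ℝ} (ht : 1 < t) : h - h * t ≤ F t := by
  have h1 := hF.convex.convexOn.slope_mono_adjacent (mem_univ 0) (mem_univ t) one_pos ht
  rw [hF.zero, hF.one, div_le_div_iff₀ (by norm_num) (by linarith)] at h1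
  nlinarith

theorem chord_left (hF : IsCandidate h F) {t : ℝ} (ht : t < 0) : h - h * t ≤ F t := by
  have h1 := hF.convex.convexOn.slope_mono_adjacent (mem_univ t) (mem_univ 1) ht one_pos
  rw [hF.zero, hF.one, div_le_div_iff₀ (by linarith) (by norm_num)] at h1
  nlinarith

theorem approx (hh : 0 < h) (hF : IsCandidate h F) (T : ℝ) (K : ℕ) {ε : ℝ} (hε : 0 < ε) :
    ∃ (p ρ : ℝ → ℝ) (c : ℝ), IsCandidate h p ∧ 0 < c ∧ (∀ t, p t = ρ t - c * t) ∧
      (∀ t, 0 < ρ t) ∧
      (∀ C D : ℝ, 0 < D → ∃ t : ℝ, 0 ≤ t ∧ ρ t < D * Real.exp (-(C * t))) ∧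
      ∀ k ≤ K, ∀ t : ℝ, |t| ≤ T → |iteratedDeriv k (fun s => p s - F s) t| < ε := by
  obtain ⟨a, b, ha, hb, hab⟩ := hF.asymptote_top
  obtain ⟨a', b', hb', hab'⟩ := hF.asymptote_bot
  have hcont : Continuous F := continuous_iff_continuousAt.2 fun t => (hF.analytic t).continuousAt
  have hsm : ∀ s, ContDiffAt ℝ ∞ F s := fun s => (hF.analytic s).contDiffAt
  -- positivity above the asymptote
  have hpos : ∀ t, 0 < F t - a * t := by
    intro t
    have h1 : StrictConvexOn ℝ univ (fun t => F t - (a * t + b)) := by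
      refine ⟨convex_univ, ?_⟩
      intro x _ y _ hxy m n hm hn hmn
      have h2 := hF.convex.2 (mem_univ x) (mem_univ y) hxy hm hn hmn
      simp only [smul_eq_mul] at h2 ⊢
      have h3 : m * (F x - (a * x + b)) + n * (F y - (a * y + b)) =
          m * F x + n * F y - (a * (m * x + n * y) + (m + n) * b) := by ring
      rw [h3, hmn, one_mul]
      linarith
    have := pos_of_tendsto_zero h1 hab t
    linarith
  -- the new slope
  set T' : ℝ := max T 1 with hT'
  have hT1 : 1 ≤ T' := le_max_right _ _
  obtain ⟨t₀, ht₀, hmin⟩ := (isCompact_Icc (a := -T') (b := T')).exists_isMinOn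
    (nonempty_Icc.2 (by linarith)) (f := fun t => F t - a * t)
    (hcont.sub (continuous_const.mul continuous_id)).continuousOn
  set m := F t₀ - a * t₀ with hm
  have hm0 : 0 < m := hpos t₀
  set κ := min (-a / 2) (m / (2 * T')) with hκ
  have hκ0 : 0 < κ := lt_min (by linarith) (by positivity)
  have hκa : κ ≤ -a / 2 := min_le_left _ _
  have hκm : κ * T' ≤ m / 2 := by
    have h1 : κ ≤ m / (2 * T') := min_le_right _ _
    calc κ * T' ≤ m / (2 * T') * T' := mul_le_mul_of_nonneg_right h1 (by linarith)
      _ = m / 2 := by field_simp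
  set c := -a - κ with hc
  have hc0 : 0 < c := by linarith
  have hu : ∀ t, t ∈ Icc (-T') T' → 0 < uu F c t := by
    intro t ht
    have h1 : m ≤ F t - a * t := hmin ht
    have h2 : κ * t ≤ κ * T' := mul_le_mul_of_nonneg_left ht.2 hκ0.le
    have h3 : uu F c t = F t - a * t - κ * t := by rw [uu, hc]; ring
    rw [h3]
    linarith
  have hu0 : 0 < uu F c 0 := hu 0 ⟨by linarith, by linarith⟩
  have hu1 : 0 < uu F c 1 := hu 1 ⟨by linarith, hT1⟩
  -- `c < h`
  have hch : c < h := by
    have h1 : -a ≤ h := by
      by_contra hcon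
      push Not at hcon
      have h2 : Tendsto (fun t : ℝ => h - b + (-(h + a)) * t) atTop atTop :=
        tendsto_atTop_add_const_left _ _ (tendsto_id.const_mul_atTop (by linarith))
      have h3 : Tendsto (fun t => F t - (a * t + b)) atTop atTop := by
        refine tendsto_atTop_mono' _ ?_ h2
        filter_upwards [eventually_gt_atTop (1 : ℝ)] with t ht
        have := chord_right hF ht
        linarith
      exact not_tendsto_nhds_of_tendsto_atTop h3 0 hab
    linarith
  -- limits of `u`
  have hubot : Tendsto (uu F c) atBot atTop := by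
    have h2 : Tendsto (fun t : ℝ => h + (c - h) * t) atBot atTop :=
      tendsto_atTop_add_const_left _ _
        (tendsto_id.const_mul_atBot_of_neg (by linarith))
    refine tendsto_atTop_mono' _ ?_ h2
    filter_upwards [eventually_lt_atBot (0 : ℝ)] with t ht
    have := chord_left hF ht
    rw [uu]
    linarith
  have hutop : ∀ᶠ t in atTop, uu F c t ≤ -(κ / 2 * t) := by
    have h1 := hab.eventually (gt_mem_nhds one_pos)
    filter_upwards [h1, eventually_ge_atTop ((b + 1) / (κ / 2))] with t ht ht2
    rw [div_le_iff₀ (by positivity)] at ht2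
    rw [uu, hc]
    nlinarith
  -- choice of `e`
  have hneg : deriv F 1 < 0 := hF.deriv_one_lt
  set ε' := min ε (-deriv F 1) with hε'
  have hε'0 : 0 < ε' := lt_min hε (by linarith)
  have hall : ∀ᶠ e in 𝓝 (0 : ℝ), ∀ k ∈ Finset.range (K + 2), ∀ t ∈ Icc (-T') T',
      |iteratedDeriv k (fun s => df F h c (e, s)) t| < ε' := by
    rw [Finset.eventually_all]
    intro k _
    apply eventually_small isCompact_Icc _ (df_zero hh) k hε'0
    intro t ht
    exact contDiffAt_df hh hsm (hu t ht).ne' hu0.ne' hu1.ne'
  obtain ⟨e, he0, he⟩ : ∃ e : ℝ, 0 < e ∧ ∀ k ∈ Finset.range (K + 2), ∀ t ∈ Icc (-T') T',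
      |iteratedDeriv k (fun s => df F h c (e, s)) t| < ε' := by
    obtain ⟨e, h1, h2⟩ := ((hall.filter_mono nhdsWithin_le_nhds).and
      (self_mem_nhdsWithin (s := Ioi (0 : ℝ)) (a := 0))).exists
    exact ⟨e, h2, h1⟩
  -- comparison with the difference
  have hucont : Continuous (uu F c) := by
    unfold uu
    exact hcont.add (continuous_const.mul continuous_id)
  have hclose : ∀ k ∈ Finset.range (K + 2), ∀ t ∈ Icc (-T') T',
      |iteratedDeriv k (fun s => pp F h c e s - F s) t| < ε' := by
    intro k hk t ht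
    have h1 : (fun s => pp F h c e s - F s) =ᶠ[𝓝 t] fun s => df F h c (e, s) := by
      filter_upwards [hucont.continuousAt.eventually (lt_mem_nhds (hu t ht))] with s hs
      exact df_eq hF.zero hF.one he0 hs hu0 hu1
    rw [h1.iteratedDeriv_eq]
    exact he k hk t ht
  have hr0 : 0 < rr F c e 0 := R_pos _
  have hr1 : 0 < rr F c e 1 := R_pos _
  have hk : 0 < h / rr F c e 0 := div_pos hh hr0
  have z : pp F h c e 0 = h := by
    unfold pp
    field_simp
    ring
  have o : pp F h c e 1 = 0 := by
    unfold pp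
    ring
  have slope : (pp F h c e 1 - pp F h c e 0) / (1 - 0) = -h := by rw [z, o]; ring
  have hdiff : ∀ t, DifferentiableAt ℝ (pp F h c e) t := fun t =>
    (analyticAt_pp hF.analytic e t).differentiableAt
  have hxtop : Tendsto (fun t => -(uu F c t / e)) atTop atTop := by
    have h1 : Tendsto (fun t : ℝ => (κ / 2 / e) * t) atTop atTop :=
      tendsto_id.const_mul_atTop (by positivity)
    refine tendsto_atTop_mono' _ ?_ h1
    filter_upwards [hutop] with t ht
    rw [div_mul_eq_mul_div, ← neg_div]
    apply div_le_div_of_nonneg_right _ he0.le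
    linarith
  have hxbot : Tendsto (fun t => -(uu F c t / e)) atBot atBot := by
    apply tendsto_neg_atTop_atBot.comp
    exact hubot.atTop_div_const he0
  refine ⟨pp F h c e, fun t => h / rr F c e 0 * rr F c e t, h / rr F c e 0 * rr F c e 1,
    ⟨strictConvexOn_pp hh hF.convex he0, analyticAt_pp hF.analytic e, z, o, ?_, ?_, ?_, ?_, ?_⟩,
    mul_pos hk hr1, ?_, fun t => mul_pos hk (R_pos _), ?_, ?_⟩
  · have := (strictConvexOn_pp (c := c) hh hF.convex he0).deriv_lt_slope (Set.mem_univ 0)
      (Set.mem_univ 1) one_pos (hdiff 0)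
    rw [slope_def_field, slope] at this
    exact this
  · have := (strictConvexOn_pp (c := c) hh hF.convex he0).slope_lt_deriv (Set.mem_univ 0)
      (Set.mem_univ 1) one_pos (hdiff 1)
    rw [slope_def_field, slope] at this
    exact this
  · have h1 := hclose 1 (by simp) 1 ⟨by linarith, hT1⟩
    rw [iteratedDeriv_one] at h1
    have h2 : deriv (fun s => pp F h c e s - F s) 1 = deriv (pp F h c e) 1 - deriv F 1 :=
      deriv_fun_sub (hdiff 1) (hF.analytic 1).differentiableAt
    rw [h2] at h1
    have h3 := (abs_lt.1 h1).2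
    have h4 : ε' ≤ -deriv F 1 := min_le_right _ _
    linarith
  · refine ⟨-(h / rr F c e 0 * rr F c e 1), 0, ?_, le_rfl, ?_⟩
    · have := mul_pos hk hr1
      linarith
    · have h1 := (tendsto_R_top.comp hxtop).const_mul (h / rr F c e 0)
      rw [mul_zero] at h1
      refine h1.congr fun t => ?_
      simp only [Function.comp, pp, rr]
      ring
  · refine ⟨h / rr F c e 0 * ((a' + c) / e - rr F c e 1), h / rr F c e 0 * (b' / e),
      mul_nonneg hk.le (div_nonneg hb' he0.le), ?_⟩
    have h1 := (tendsto_R_bot.comp hxbot).add (hab'.div_const e)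
    rw [zero_div, add_zero] at h1
    have h2 := h1.const_mul (h / rr F c e 0)
    rw [mul_zero] at h2
    refine h2.congr fun t => ?_
    have huu : uu F c t / e = (F t + c * t) / e := rfl
    simp only [Function.comp, pp]
    rw [show rr F c e t = R (-(uu F c t / e)) from rfl]
    generalize R (-(uu F c t / e)) = x
    rw [huu]
    ring
  · intro t
    unfold pp
    ring
  · intro C D hD
    have h1 : Tendsto (fun t : ℝ => (κ / 2 / e) * t) atTop atTop :=
      tendsto_id.const_mul_atTop (by positivity)
    have h2 := ((tendsto_R_exp (C / (κ / 2 / e))).comp h1).const_mul (h / rr F c e 0)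
    rw [mul_zero] at h2
    obtain ⟨t, ht1, ht2, ht3⟩ := ((h2.eventually (gt_mem_nhds hD)).and
      (hutop.and (eventually_ge_atTop (0 : ℝ)))).exists
    refine ⟨t, ht3, ?_⟩
    have h3 : rr F c e t ≤ R (κ / 2 / e * t) := by
      apply strictAnti_R.antitone
      rw [div_mul_eq_mul_div, ← neg_div]
      apply div_le_div_of_nonneg_right _ he0.le
      linarith
    simp only [Function.comp] at ht1
    have h4 : C / (κ / 2 / e) * (κ / 2 / e * t) = C * t := by
      field_simp
    rw [h4] at ht1
    rw [Real.exp_neg, ← div_eq_mul_inv, lt_div_iff₀ (Real.exp_pos _)]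
    refine lt_of_le_of_lt ?_ ht1
    rw [mul_assoc]
    exact mul_le_mul_of_nonneg_left (mul_le_mul_of_nonneg_right h3 (Real.exp_pos _).le) hk.le
  · intro k hk t ht
    refine lt_of_lt_of_le (hclose k (Finset.mem_range.2 (by omega)) t ?_) (min_le_left _ _)
    have := abs_le.1 ht
    exact ⟨by linarith [le_max_left T 1], this.2.trans (le_max_left _ _)⟩

end Pool.Agent.Y285.PF
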