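import Pool.Agent.H576R3.PR.Press

/-!
A pressure function of a bounded potential on a system with horseshoes near every orbit cannot be of
the form `ρ t - c t` with `ρ > 0` decreasing faster than every exponential (adapted from
`Pool.Agent.H576R3.PR.not_cand`).
-/

set_option autoImplicit false

open scoped Topology ENNReal
open MeasureTheory Filter Finset
open Pool.Agent.H576R3.Defs (ksEntropy)
open Pool.Agent.H576R3.PR

namespace Pool.Agent.Y285.PF

variable {X : Type*} [MeasurableSpace X]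

theorem not_fast {f : X → X} {ψ : X → ℝ} (hψ : Measurable ψ) {S : ℝ}
    (hS : ∀ x, |ψ x| ≤ S) {h : ℝ} (hh : 0 < h) {N : ℕ} {C₁ : ℝ} (hN : 0 < N) (hC₁ : 0 ≤ C₁)
    (hor : ∀ q : ℕ, 0 < q → ∀ x, ∃ ν : Measure X,
      IsProbabilityMeasure ν ∧ MeasurePreserving f ν ν ∧
      ((Real.log q / (N * (2 * q + 1) : ℕ) : ℝ) : EReal) ≤ ksEntropy ν f ∧
      ∫ y, ψ y ∂ν ≤ (∑ i ∈ range (N * (2 * q)), ψ (f^[i] x) + C₁) / (N * (2 * q + 1) : ℕ))
    {p ρ : ℝ → ℝ} {c : ℝ} (hc0 : 0 < c) (hp0 : p 0 = h) (hpρ : ∀ t, p t = ρ t - c * t)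
    (hρ : ∀ t, 0 < ρ t)
    (hfast : ∀ C D : ℝ, 0 < D → ∃ t : ℝ, 0 ≤ t ∧ ρ t < D * Real.exp (-(C * t))) :
    ¬ ∀ t : ℝ, pressure f (fun y => -t * ψ y) = ((p t : ℝ) : EReal) := by
  intro hp
  have hN0 : (0 : ℝ) < N := by exact_mod_cast hN
  -- step 1
  have hent : ∀ μ : Measure X, IsProbabilityMeasure μ → MeasurePreserving f μ μ →
      ksEntropy μ f ≤ (h : EReal) := by
    intro μ h1 h2
    have h3 := le_pressure f (fun y => -0 * ψ y) μ h1 h2
    rw [hp 0, hp0] at h3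
    simpa using h3
  -- step 2
  have hmin : ∀ κ > 0, ∃ μ : Measure X, IsProbabilityMeasure μ ∧ MeasurePreserving f μ μ ∧
      ∫ x, ψ x ∂μ ≤ c + κ := by
    intro κ hκ
    set t := (h + 1) / κ with ht
    have ht0 : 0 < t := by positivity
    have h1 : ((-(c * t) - 1 : ℝ) : EReal) < pressure f (fun y => -t * ψ y) := by
      rw [hp t, hpρ]
      apply EReal.coe_lt_coe_iff.2
      have := hρ t
      linarith
    obtain ⟨μ, hμ1, hμ2, hμ3⟩ := exists_of_lt_pressure _ _ h1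
    refine ⟨μ, hμ1, hμ2, ?_⟩
    have h2 : ((-(c * t) - 1 : ℝ) : EReal) < (h : EReal) + ((∫ x, -t * ψ x ∂μ : ℝ) : EReal) :=
      lt_of_lt_of_le hμ3 (add_le_add (hent μ hμ1 hμ2) le_rfl)
    rw [← EReal.coe_add, EReal.coe_lt_coe_iff, integral_const_mul] at h2
    have h3 : κ * t = h + 1 := by rw [ht]; field_simp
    by_contra hcon
    push Not at hcon
    have h4 := mul_lt_mul_of_pos_left hcon ht0
    nlinarith
  -- step 3 and 4
  have hlow : ∀ t : ℝ, 0 ≤ t → ∀ q : ℕ, 0 < q →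
      (Real.log q - (1 + C₁) * t) / (N * (2 * q + 1)) ≤ ρ t := by
    intro t ht q hq
    have hq0 : (0 : ℝ) < q := by exact_mod_cast hq
    obtain ⟨x, hx⟩ := exists_small_sum hψ hS hmin (N * (2 * q)) (by positivity)
    obtain ⟨ν, hν1, hν2, hν3, hν4⟩ := hor q hq x
    have h1 := le_pressure f (fun y => -t * ψ y) ν hν1 hν2
    rw [hp t, integral_const_mul] at h1
    have h2 := (add_le_add hν3 (le_refl ((-t * ∫ y, ψ y ∂ν : ℝ) : EReal))).trans h1
    rw [← EReal.coe_add, EReal.coe_le_coe_iff, hpρ] at h2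
    push_cast at h2 hx hν4
    have hB : 0 < (N : ℝ) * (2 * q + 1) := by positivity
    have h3 : ∫ y, ψ y ∂ν ≤ (N * (2 * q + 1) * c + (1 + C₁)) / (N * (2 * q + 1)) := by
      refine hν4.trans ?_
      apply div_le_div_of_nonneg_right _ hB.le
      have : (N : ℝ) * (2 * q) * c ≤ N * (2 * q + 1) * c := by
        apply mul_le_mul_of_nonneg_right _ hc0.le
        nlinarith
      linarith
    have h4 : ((N : ℝ) * (2 * q + 1) * c + (1 + C₁)) / (N * (2 * q + 1)) =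
        c + (1 + C₁) / (N * (2 * q + 1)) := by
      field_simp
    rw [h4] at h3
    have h5 := mul_le_mul_of_nonneg_left h3 ht
    have h6 : (Real.log q - (1 + C₁) * t) / (N * (2 * q + 1)) =
        Real.log q / (N * (2 * q + 1)) - t * ((1 + C₁) / (N * (2 * q + 1))) := by
      field_simp
    rw [h6]
    nlinarith
  -- step 5
  obtain ⟨t, ht0, ht⟩ := hfast (1 + C₁) (Real.exp (-1) / (5 * N)) (by positivity)
  set E := Real.exp ((1 + C₁) * t + 1) with hE
  have hE1 : 1 ≤ E := Real.one_le_exp (by positivity)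
  have hqE : E ≤ (⌈E⌉₊ : ℕ) := Nat.le_ceil E
  have hqE' : ((⌈E⌉₊ : ℕ) : ℝ) < E + 1 := Nat.ceil_lt_add_one (by linarith)
  have hq : 0 < ⌈E⌉₊ := Nat.ceil_pos.2 (by linarith)
  have h1 := hlow t ht0 ⌈E⌉₊ hq
  have h2 : (1 + C₁) * t + 1 ≤ Real.log (⌈E⌉₊ : ℕ) := by
    have := Real.log_le_log (by linarith) hqE
    rwa [hE, Real.log_exp] at this
  have h3 : 1 / (5 * N * E) ≤ (Real.log (⌈E⌉₊ : ℕ) - (1 + C₁) * t) / (N * (2 * (⌈E⌉₊ : ℕ) + 1)) := by
    apply div_le_div₀ (by linarith) (by linarith) (by positivity)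
    have : (2 * ((⌈E⌉₊ : ℕ) : ℝ) + 1) ≤ 5 * E := by linarith
    nlinarith
  have h4 : 1 / (5 * N * E) = Real.exp (-1) / (5 * N) * Real.exp (-((1 + C₁) * t)) := by
    rw [hE, Real.exp_add, Real.exp_neg, Real.exp_neg]
    field_simp
  rw [h4] at h3
  linarith

end Pool.Agent.Y285.PF
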