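import Pool.Agent.H576R3.PR.Setup
import Pool.Agent.H576R3.PR.Final
import Pool.Agent.Y285.PF.Fast

/-!
The lemmas `isHyperbolicMatrix_cat`, `logExpansion_periodic` and `not_pressure` are adapted from the
starting file `Pool.Agent.Results.MP_80da8f_an.NotPressureFunction`.
-/

set_option autoImplicit false

open scoped Topology
open Set Filter MeasureTheory

namespace Pool.Agent.Y285.PF

open Pool.Agent.H576R3 Pool.Agent.H576R3.PR

lemma isHyperbolicMatrix_cat :
    ∃ l : ℂ, IsHyperbolicMatrix !![2, 1; 1, 1] l := by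
  have hch : ∀ z : ℂ, ((!![2, 1; 1, 1] : Matrix (Fin 2) (Fin 2) ℤ).map
      fun n => (n : ℂ)).charpoly.IsRoot z ↔ z ^ 2 - 3 * z + 1 = 0 := by
    intro z
    rw [Matrix.charpoly_fin_two, Polynomial.IsRoot.def]
    simp [Matrix.trace, Matrix.det_fin_two, Fin.sum_univ_two]
    norm_num
  refine ⟨((3 + Real.sqrt 5) / 2 : ℝ), ?_, ?_, ?_, ?_⟩
  · rw [Matrix.isUnit_iff_isUnit_det]
    simp [Matrix.det_fin_two]
  · intro z hz h1
    rw [hch] at hz
    have h2 : Complex.normSq z = 1 := by
      rw [Complex.normSq_eq_norm_sq, h1]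
      norm_num
    rw [Complex.normSq_apply] at h2
    have hre := congrArg Complex.re hz
    have him := congrArg Complex.im hz
    simp only [pow_two, Complex.add_re, Complex.sub_re, Complex.mul_re, Complex.one_re,
      Complex.zero_re, Complex.add_im, Complex.sub_im, Complex.mul_im, Complex.one_im,
      Complex.zero_im, Complex.re_ofNat, Complex.im_ofNat] at hre him
    have h3 : z.im * (2 * z.re - 3) = 0 := by linarith
    rcases mul_eq_zero.1 h3 with h | h
    · rw [h] at h2 hre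
      nlinarith
    · nlinarith [sq_nonneg z.im]
  · rw [hch]
    have h5 : Real.sqrt 5 ^ 2 = 5 := Real.sq_sqrt (by norm_num)
    have h6 : ((3 + Real.sqrt 5) / 2 : ℝ) ^ 2 - 3 * ((3 + Real.sqrt 5) / 2 : ℝ) + 1 = 0 := by
      nlinarith
    exact_mod_cast h6
  · rw [Complex.norm_real, Real.norm_eq_abs, abs_of_nonneg (by positivity)]
    have := Real.sqrt_nonneg 5
    linarith

lemma logExpansion_periodic {L : Matrix (Fin 2) (Fin 2) ℤ} {f : Torus ≃ₜ Torus}
    {F : Plane → Plane} {P : Plane → Plane →L[ℝ] Plane} (H : IsAreaPreservingAnosov L f F P)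
    (x : Plane) (v : Fin 2 → ℤ) : logExpansion F P (x + lat v) = logExpansion F P x := by
  have h1 : P (x + lat v) = P x := H.periodic x v
  rw [logExpansion_def, logExpansion_def, h1, fderiv_periodic H.homotopic]

theorem not_pressure {L : Matrix (Fin 2) (Fin 2) ℤ} {h : ℝ} (hh : 0 < h) {f : Torus ≃ₜ Torus}
    {F : Plane → Plane} {P : Plane → Plane →L[ℝ] Plane} (H : IsAreaPreservingAnosov L f F P)
    {p ρ : ℝ → ℝ} {c : ℝ} (hc0 : 0 < c) (hp0 : p 0 = h) (hpρ : ∀ t, p t = ρ t - c * t)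
    (hρ : ∀ t, 0 < ρ t)
    (hfast : ∀ C D : ℝ, 0 < D → ∃ t : ℝ, 0 ≤ t ∧ ρ t < D * Real.exp (-(C * t))) :
    ¬ ∀ t : ℝ, pressure f (geometricPotential F P t) = ((p t : ℝ) : EReal) := by
  obtain ⟨m, K, hm, hG⟩ := exists_isHyp H
  set ψ : Torus → ℝ := fun y => logExpansion F P (rep y) with hψ
  have hψp : ∀ x, ψ (proj x) = logExpansion F P x := by
    intro x
    obtain ⟨v, hv⟩ := rep_proj x
    rw [hψ]
    simp only
    rw [hv, logExpansion_periodic H]
  have hψc : Continuous ψ := isCover_proj.continuous_of_lift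
    (continuous_logExpansion (H.smooth_lift.1.of_le (by simp)) H.splitting) hψp
  have hlift : ∀ n x, proj (F^[n] x) = f^[n] (proj x) := fun n x => iterate_semi H.smooth_lift.2 n x
  have hgf : (⇑(f ^ m) : Torus → Torus) = f^[m] := by
    funext y
    rw [← zpow_natCast, zpow_nat_apply]
  obtain ⟨δ, C, hE⟩ := isExp_of_isHyp (g := ⇑(f ^ m)) (ψ' := fun x => bs f ψ x m) hG isCover_proj
    (fun a => by rw [hgf]; exact hlift m a)
    (fun a => by
      unfold bs
      apply Finset.sum_congr rfl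
      intro i _
      rw [← hlift, hψp])
  obtain ⟨N, C₁, hN, hC₁, hor⟩ := horseshoes (volume : Measure Torus) f H.area ψ hψc half
    (by norm_num) half_dist m hm hE
  obtain ⟨S, hS⟩ : ∃ S, ∀ x, |ψ x| ≤ S := by
    obtain ⟨S, hS⟩ := (isCompact_univ.image (hψc.abs)).isBounded.bddAbove
    exact ⟨S, fun x => hS ⟨x, trivial, rfl⟩⟩
  exact not_fast hψc.measurable hS hh hN hC₁ hor hc0 hp0 hpρ hρ hfast

end Pool.Agent.Y285.PF
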