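import Mathlib

/-!
Derivatives of all orders with respect to the second variable of a smooth function of two variables
which vanishes on a horizontal segment are uniformly small near this segment.
-/

set_option autoImplicit false

open scoped Topology ContDiff
open Filter Set

namespace Pool.Agent.Y285.PF

theorem contDiffAt_deriv_snd {Φ : ℝ × ℝ → ℝ} {p : ℝ × ℝ} (h : ContDiffAt ℝ ∞ Φ p) :
    ContDiffAt ℝ ∞ (fun q : ℝ × ℝ => deriv (fun s => Φ (q.1, s)) q.2) p := by
  have h1 : ∀ᶠ q in 𝓝 p, DifferentiableAt ℝ Φ q := by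
    have h2 : ∀ᶠ q in 𝓝 p, ContDiffAt ℝ 1 Φ q :=
      (h.of_le (by exact_mod_cast le_top)).eventually (by simp)
    filter_upwards [h2] with q hq
    exact hq.differentiableAt (by simp)
  have h3 : ContDiffAt ℝ ∞ (fun q : ℝ × ℝ => fderiv ℝ Φ q (0, 1)) p := by
    have h4 : ContDiffAt ℝ ∞ (fderiv ℝ Φ) p := h.fderiv_right (by simp)
    exact h4.clm_apply contDiffAt_const
  refine h3.congr_of_eventuallyEq ?_
  filter_upwards [h1] with q hq
  have h5 : HasDerivAt (fun s : ℝ => ((q.1, s) : ℝ × ℝ)) (0, 1) q.2 :=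
    (hasDerivAt_const q.2 q.1).prodMk (hasDerivAt_id q.2)
  have h6 : HasFDerivAt Φ (fderiv ℝ Φ q) ((q.1, q.2) : ℝ × ℝ) := hq.hasFDerivAt
  exact (h6.comp_hasDerivAt q.2 h5).deriv

theorem contDiffAt_iteratedDeriv_snd {Φ : ℝ × ℝ → ℝ} {p : ℝ × ℝ} (h : ContDiffAt ℝ ∞ Φ p) (k : ℕ) :
    ContDiffAt ℝ ∞ (fun q : ℝ × ℝ => iteratedDeriv k (fun s => Φ (q.1, s)) q.2) p := by
  induction k with
  | zero => simpa using h
  | succ k ih =>
    have := contDiffAt_deriv_snd ih
    simpa only [iteratedDeriv_succ] using this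

/-- uniform smallness of the derivatives near a segment on which the function vanishes -/
theorem eventually_small {Φ : ℝ × ℝ → ℝ} {T : Set ℝ} (hT : IsCompact T)
    (hΦ : ∀ t ∈ T, ContDiffAt ℝ ∞ Φ (0, t)) (h0 : ∀ t, Φ (0, t) = 0) (k : ℕ) {ε : ℝ}
    (hε : 0 < ε) : ∀ᶠ e in 𝓝 (0 : ℝ), ∀ t ∈ T,
      |iteratedDeriv k (fun s => Φ (e, s)) t| < ε := by
  apply hT.eventually_forall_of_forall_eventually
  intro t ht
  have h1 := (contDiffAt_iteratedDeriv_snd (hΦ t ht) k).continuousAt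
  have h2 : iteratedDeriv k (fun s => Φ (0, s)) t = 0 := by
    have : (fun s => Φ (0, s)) = fun _ => 0 := funext h0
    rw [this]
    simp
  have h3 : Tendsto (fun q : ℝ × ℝ => |iteratedDeriv k (fun s => Φ (q.1, s)) q.2|) (𝓝 (0, t))
      (𝓝 0) := by
    have := h1.tendsto.abs
    simp only [h2, abs_zero] at this
    exact this
  exact h3.eventually (gt_mem_nhds hε)

end Pool.Agent.Y285.PF
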