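import Pool.Agent.H576R3.PR.Fun
import Pool.Agent.Y285.PF.Param

/-!
Every candidate can be approximated, with all derivatives and locally uniformly, by candidates which
approach their asymptote at `+∞` faster than every exponential.
-/

set_option autoImplicit false

open scoped Topology ContDiff
open Filter Set
open Pool.Agent.H576R3.PR

namespace Pool.Agent.Y285.PF

/-- a strictly convex function with limit zero at infinity is positive -/
theorem pos_of_tendsto_zero {φ : ℝ → ℝ} (hφ : StrictConvexOn ℝ univ φ)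
    (hlim : Tendsto φ atTop (𝓝 0)) (t : ℝ) : 0 < φ t := by
  have key : ∀ x y : ℝ, x < y → φ y < φ x := by
    intro x y hxy
    by_contra hcon
    push Not at hcon
    have h1 : ∀ z, y + 1 ≤ z → φ y + (z - y) * (φ (y + 1) - φ y) ≤ φ z := by
      intro z hz
      rcases eq_or_lt_of_le hz with rfl | hz
      · apply le_of_eq
        ring
      · have h2 := hφ.convexOn.slope_mono_adjacent (mem_univ y) (mem_univ z)
          (by linarith : y < y + 1) hz
        rw [div_le_div_iff₀ (by linarith) (by linarith)] at h2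
        nlinarith
    have h3 : φ y < φ (y + 1) := by
      have h4 := hφ.slope_strict_mono_adjacent (mem_univ x) (mem_univ (y + 1)) hxy
        (by linarith : y < y + 1)
      have h5 : 0 ≤ (φ y - φ x) / (y - x) := div_nonneg (by linarith) (by linarith)
      have h6 : 0 < (φ (y + 1) - φ y) / (y + 1 - y) := lt_of_le_of_lt h5 h4
      have h7 : y + 1 - y = 1 := by ring
      rw [h7, div_one] at h6
      linarith
    have h8 : Tendsto (fun z => φ y + (z - y) * (φ (y + 1) - φ y)) atTop atTop := by
      apply tendsto_atTop_add_const_left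
      apply Tendsto.atTop_mul_const (by linarith)
      exact tendsto_atTop_add_const_right _ _ tendsto_id
    have h9 : Tendsto φ atTop atTop := by
      refine tendsto_atTop_mono' _ ?_ h8
      filter_upwards [eventually_ge_atTop (y + 1)] with z hz
      exact h1 z hz
    exact not_tendsto_nhds_of_tendsto_atTop h9 0 hlim
  have h1 : 0 ≤ φ (t + 1) := by
    apply le_of_tendsto hlim
    filter_upwards [eventually_gt_atTop (t + 1)] with z hz
    exact (key _ _ hz).le
  exact lt_of_le_of_lt h1 (key t (t + 1) (by linarith))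

theorem strictAnti_R : StrictAnti R := by
  apply strictAnti_of_deriv_neg
  intro t
  rw [deriv_R]
  exact R1_neg t

theorem tendsto_R_exp (C : ℝ) : Tendsto (fun s : ℝ => R s * Real.exp (C * s)) atTop (𝓝 0) := by
  have h2 : Tendsto (fun t : ℝ => Real.exp t - C * t) atTop atTop := by
    have h3 : Tendsto (fun t : ℝ => Real.exp t / t ^ 1) atTop atTop :=
      Real.tendsto_exp_div_pow_atTop 1
    have h4 : Tendsto (fun t : ℝ => t * (Real.exp t / t ^ 1 - C)) atTop atTop :=
      tendsto_id.atTop_mul_atTop₀ (tendsto_atTop_add_const_right _ _ h3)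
    refine h4.congr' ?_
    filter_upwards [eventually_gt_atTop (0 : ℝ)] with t ht
    field_simp
  have h5 : Tendsto (fun t : ℝ => C * t - Real.exp t) atTop atBot := by
    refine (tendsto_neg_atTop_atBot.comp h2).congr fun t => ?_
    simp only [Function.comp]
    ring
  have h6 := Real.tendsto_exp_neg_atTop_nhds_zero.mul (Real.tendsto_exp_atBot.comp h5)
  rw [zero_mul] at h6
  refine squeeze_zero (fun s => mul_nonneg (R_pos s).le (Real.exp_pos _).le) (fun s => ?_) h6
  calc R s * Real.exp (C * s) ≤ Real.exp (-s - Real.exp s) * Real.exp (C * s) :=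
        mul_le_mul_of_nonneg_right (R_le s) (Real.exp_pos _).le
    _ = _ := by
        simp only [Function.comp]
        rw [← Real.exp_add, ← Real.exp_add]
        congr 1
        ring

/-- the error function -/
noncomputable def Lam (y : ℝ) : ℝ := Real.log (y + Real.exp (-y))

theorem R_neg (x : ℝ) : R (-x) = x + Lam (Real.exp (-x)) := by
  unfold R Lam
  have h1 : Real.exp (-x) + Real.exp (-Real.exp (-x)) =
      Real.exp (-x) * (1 + Real.exp (- -x - Real.exp (-x))) := by
    rw [mul_add, mul_one, ← Real.exp_add]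
    congr 2
    ring
  rw [h1, Real.log_mul (Real.exp_pos _).ne' (by positivity), Real.log_exp]
  ring

theorem contDiff_Lam : ContDiff ℝ ∞ Lam := by
  unfold Lam
  apply ContDiff.log
  · exact contDiff_id.add (Real.contDiff_exp.comp contDiff_neg)
  · intro y
    have := Real.add_one_le_exp (-y)
    have : 1 ≤ y + Real.exp (-y) := by linarith
    positivity

section shape

variable (F : ℝ → ℝ) (h c : ℝ)

/-- the difference to the line `- c t` -/
def uu (t : ℝ) : ℝ := F t + c * t

/-- the basic convex function -/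
noncomputable def rr (e t : ℝ) : ℝ := R (-(uu F c t / e))

/-- the new candidate -/
noncomputable def pp (e t : ℝ) : ℝ := h / rr F c e 0 * (rr F c e t - rr F c e 1 * t)

/-- `e` times the error of the soft maximum, smooth in both variables -/
noncomputable def er (q : ℝ × ℝ) : ℝ := q.1 * Lam (expNegInvGlue (q.1 / uu F c q.2))

theorem rr_eq {e t : ℝ} (he : 0 < e) (hu : 0 < uu F c t) :
    rr F c e t = (uu F c t + er F c (e, t)) / e := by
  have h1 : expNegInvGlue (e / uu F c t) = Real.exp (-(uu F c t / e)) := by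
    rw [expNegInvGlue, if_neg (not_le.2 (div_pos he hu)), inv_div]
  rw [rr, R_neg, er, h1]
  field_simp

theorem er_zero (t : ℝ) : er F c (0, t) = 0 := by simp [er]

theorem contDiffAt_er {t : ℝ} (hF : ContDiffAt ℝ ∞ F t) (hu : uu F c t ≠ 0) :
    ContDiffAt ℝ ∞ (er F c) (0, t) := by
  unfold er
  apply contDiffAt_fst.mul
  apply contDiff_Lam.contDiffAt.comp
  apply expNegInvGlue.contDiff.contDiffAt.comp
  apply contDiffAt_fst.div _ hu
  have h1 : ContDiffAt ℝ ∞ (uu F c) t := hF.add (contDiffAt_const.mul contDiffAt_id)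
  exact ContDiffAt.comp (0, t) (g := uu F c) (f := fun q : ℝ × ℝ => q.2) h1 contDiffAt_snd

/-- the difference between the new candidate and the given one, smooth in both variables -/
noncomputable def df (q : ℝ × ℝ) : ℝ :=
  h / (h + er F c (q.1, 0)) *
    (uu F c q.2 + er F c q - (c + er F c (q.1, 1)) * q.2) - F q.2

variable {F h c}

theorem df_zero (hh : 0 < h) (t : ℝ) : df F h c (0, t) = 0 := by
  simp only [df, er_zero, add_zero]
  rw [div_self hh.ne', uu]
  ring

theorem df_eq (h0 : F 0 = h) (h1 : F 1 = 0) {e t : ℝ} (he : 0 < e)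
    (hu : 0 < uu F c t) (hu0 : 0 < uu F c 0) (hu1 : 0 < uu F c 1) :
    pp F h c e t - F t = df F h c (e, t) := by
  have e0 : uu F c 0 = h := by simp [uu, h0]
  have e1 : uu F c 1 = c := by simp [uu, h1]
  unfold pp df
  have hr := rr_eq F c he hu0
  have hp : 0 < rr F c e 0 := R_pos _
  rw [hr, e0] at hp
  have hp' : 0 < h + er F c (e, 0) := by
    have := mul_pos hp he
    rwa [div_mul_cancel₀ _ he.ne'] at this
  rw [hr, rr_eq F c he hu, rr_eq F c he hu1, e0, e1]
  field_simp

theorem contDiffAt_df (hh : 0 < h) {t : ℝ} (hF : ∀ s, ContDiffAt ℝ ∞ F s) (hu : uu F c t ≠ 0)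
    (hu0 : uu F c 0 ≠ 0) (hu1 : uu F c 1 ≠ 0) : ContDiffAt ℝ ∞ (df F h c) (0, t) := by
  unfold df
  have hs : ∀ s, uu F c s ≠ 0 → ContDiffAt ℝ ∞ (fun q : ℝ × ℝ => er F c (q.1, s)) (0, t) := by
    intro s h1
    have h2 : ContDiffAt ℝ ∞ (er F c) ((fun q : ℝ × ℝ => ((q.1, s) : ℝ × ℝ)) (0, t)) :=
      contDiffAt_er F c (hF s) h1
    exact ContDiffAt.comp (0, t) (g := er F c) (f := fun q : ℝ × ℝ => ((q.1, s) : ℝ × ℝ)) h2
      (contDiffAt_fst.prodMk contDiffAt_const)
  have h1 : ContDiffAt ℝ ∞ (fun q : ℝ × ℝ => F q.2) (0, t) :=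
    ContDiffAt.comp (0, t) (g := F) (f := fun q : ℝ × ℝ => q.2) (hF t) contDiffAt_snd
  have h2 : ContDiffAt ℝ ∞ (fun q : ℝ × ℝ => uu F c q.2) (0, t) := by
    unfold uu
    exact h1.add (contDiffAt_const.mul contDiffAt_snd)
  refine ContDiffAt.sub (ContDiffAt.mul (ContDiffAt.div contDiffAt_const
    (contDiffAt_const.add (hs 0 hu0)) ?_) ?_) h1
  · simp only [er_zero, add_zero]
    exact hh.ne'
  · exact (h2.add (contDiffAt_er F c (hF t) hu)).sub
      ((contDiffAt_const.add (hs 1 hu1)).mul contDiffAt_snd)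

/-- strict convexity of the new function -/
theorem strictConvexOn_rr (hF : StrictConvexOn ℝ univ F) {e : ℝ} (he : 0 < e) :
    StrictConvexOn ℝ univ (rr F c e) := by
  refine ⟨convex_univ, ?_⟩
  intro x _ y _ hxy a b ha hb hab
  have h1 := hF.2 (mem_univ x) (mem_univ y) hxy ha hb hab
  have h2 := strictConvexOn_R.convexOn.2 (mem_univ (-(uu F c x / e))) (mem_univ (-(uu F c y / e)))
    ha.le hb.le hab
  simp only [smul_eq_mul] at h1 h2 ⊢
  refine lt_of_lt_of_le ?_ h2
  apply strictAnti_R
  have h3 : a * -(uu F c x / e) + b * -(uu F c y / e) = -((a * uu F c x + b * uu F c y) / e) := by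
    ring
  rw [h3]
  apply neg_lt_neg
  apply div_lt_div_of_pos_right _ he
  unfold uu
  have h4 : c * (a * x + b * y) = a * (c * x) + b * (c * y) := by ring
  rw [h4]
  linarith

theorem strictConvexOn_pp (hh : 0 < h) (hF : StrictConvexOn ℝ univ F) {e : ℝ} (he : 0 < e) :
    StrictConvexOn ℝ univ (pp F h c e) := by
  have hk : 0 < h / rr F c e 0 := div_pos hh (R_pos _)
  refine ⟨convex_univ, ?_⟩
  intro x _ y _ hxy a b ha hb hab
  have := (strictConvexOn_rr (c := c) hF he).2 (mem_univ x) (mem_univ y) hxy ha hb hab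
  simp only [smul_eq_mul, pp] at *
  have e1 : a * (h / rr F c e 0 * (rr F c e x - rr F c e 1 * x)) +
      b * (h / rr F c e 0 * (rr F c e y - rr F c e 1 * y)) =
      h / rr F c e 0 * ((a * rr F c e x + b * rr F c e y) - rr F c e 1 * (a * x + b * y)) := by ring
  rw [e1]
  apply mul_lt_mul_of_pos_left _ hk
  linarith

theorem analyticAt_pp (hF : ∀ t, AnalyticAt ℝ F t) (e t : ℝ) : AnalyticAt ℝ (pp F h c e) t := by
  have h1 : AnalyticAt ℝ (fun t => -(uu F c t / e)) t := by
    unfold uu
    exact (((hF t).add (analyticAt_const.mul analyticAt_id)).div_const).neg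
  have h2 : AnalyticAt ℝ (rr F c e) t := by
    unfold rr
    exact AnalyticAt.comp (g := R) (f := fun t => -(uu F c t / e)) (analyticAt_R _) h1
  unfold pp
  exact analyticAt_const.mul (h2.sub (analyticAt_const.mul analyticAt_id))

end shape

end Pool.Agent.Y285.PF
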